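import Pool.Agent.H.MP_929345_co.Count

/-! Integer relations between short vectors, with a constant depending on the dimension only. -/

set_option autoImplicit false

namespace Pool.Agent.H.MP_929345_co.Up

open Set Metric MeasureTheory
open scoped ENNReal

/-- Pigeonhole: `d+1` short vectors of a `2`-separated subgroup satisfy a short integer relation. -/
theorem exists_relation (d : ℕ) (K : ℝ) (hK : 0 ≤ K) :
    ∃ Q : ℕ, ∀ (V : Type) [NormedAddCommGroup V] [NormedSpace ℝ V] [FiniteDimensional ℝ V],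
      Module.finrank ℝ V = d → ∀ L : AddSubgroup V, (∀ v ∈ L, v ≠ 0 → 2 ≤ ‖v‖) →
      ∀ (n : ℕ), n = Module.finrank ℝ V + 1 →
      ∀ u : Fin n → V, (∀ i, u i ∈ L) → (∀ i, ‖u i‖ ≤ K) →
      ∃ c : Fin n → ℤ, c ≠ 0 ∧ (∀ i, |(c i : ℝ)| ≤ Q) ∧ ∑ i, (c i : ℝ) • u i = 0 := by
  classical
  obtain ⟨Q, hQ⟩ := exists_nat_ge (max 1 (((d + 1 : ℕ) * K + 1) ^ d))
  refine ⟨Q, fun V _ _ _ hd L hL n hn u hu huK => ?_⟩
  rw [hd] at hn
  have hQ1 : (1 : ℝ) ≤ Q := le_trans (le_max_left _ _) hQ
  have hQ2 : (((d + 1 : ℕ) * K + 1) ^ d : ℝ) ≤ Q := le_trans (le_max_right _ _) hQ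
  let F : (Fin n → Fin (Q + 1)) → V := fun a => ∑ i, ((a i : ℕ) : ℝ) • u i
  have hF : ∀ a, F a ∈ L := by
    intro a
    apply AddSubgroup.sum_mem
    intro i _
    rw [Nat.cast_smul_eq_nsmul]
    exact AddSubgroup.nsmul_mem _ (hu i) _
  by_cases hinj : Function.Injective F
  · exfalso
    have hcard := card_le_of_separated (Finset.univ.image F) ((d + 1 : ℕ) * (Q * K)) (by positivity)
      (by
        intro c hc
        obtain ⟨a, -, rfl⟩ := Finset.mem_image.1 hc
        calc ‖F a‖ ≤ ∑ i, ‖((a i : ℕ) : ℝ) • u i‖ := norm_sum_le _ _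
          _ ≤ ∑ _i : Fin n, (Q * K : ℝ) := by
              apply Finset.sum_le_sum
              intro i _
              rw [norm_smul]
              have h1 : ‖((a i : ℕ) : ℝ)‖ ≤ Q := by
                rw [Real.norm_natCast]
                have := (a i).2
                exact_mod_cast (by omega : (a i : ℕ) ≤ Q)
              exact mul_le_mul h1 (huK i) (norm_nonneg _) (by positivity)
          _ = ((d + 1 : ℕ) : ℝ) * (Q * K) := by
              simp [hn])
      (by
        intro c hc c' hc' hne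
        obtain ⟨a, -, rfl⟩ := Finset.mem_image.1 hc
        obtain ⟨b, -, rfl⟩ := Finset.mem_image.1 hc'
        exact hL _ (L.sub_mem (hF a) (hF b)) (sub_ne_zero.2 hne))
    rw [Finset.card_image_of_injective _ hinj, Finset.card_univ, Fintype.card_fun,
      Fintype.card_fin, Fintype.card_fin, hn, hd] at hcard
    push_cast at hcard hQ2
    have h1 : ((d : ℝ) + 1) * (Q * K) + 1 ≤ Q * (((d : ℝ) + 1) * K + 1) := by nlinarith
    have h2 : (((d : ℝ) + 1) * (Q * K) + 1) ^ d ≤ Q ^ d * (((d : ℝ) + 1) * K + 1) ^ d := by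
      rw [← mul_pow]
      exact pow_le_pow_left₀ (by positivity) h1 d
    have h3 : (Q : ℝ) ^ d * (((d : ℝ) + 1) * K + 1) ^ d ≤ Q ^ d * Q :=
      mul_le_mul_of_nonneg_left hQ2 (by positivity)
    have h4 : (Q : ℝ) ^ d * Q < (Q + 1) ^ (d + 1) := by
      rw [← pow_succ]
      exact pow_lt_pow_left₀ (by linarith) (by positivity) (by omega)
    linarith
  · rw [Function.Injective] at hinj
    push Not at hinj
    obtain ⟨a, b, hab, hne⟩ := hinj
    refine ⟨fun i => ((a i : ℕ) : ℤ) - ((b i : ℕ) : ℤ), ?_, ?_, ?_⟩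
    · intro h0
      apply hne
      funext i
      have := congrFun h0 i
      simp only [Pi.zero_apply] at this
      ext
      omega
    · intro i
      have h1 := (a i).2
      have h2 := (b i).2
      rw [abs_le]
      push_cast
      constructor
      · have : ((b i : ℕ) : ℝ) ≤ Q := by exact_mod_cast (by omega : (b i : ℕ) ≤ Q)
        have h3 : (0 : ℝ) ≤ ((a i : ℕ) : ℝ) := Nat.cast_nonneg _
        linarith
      · have : ((a i : ℕ) : ℝ) ≤ Q := by exact_mod_cast (by omega : (a i : ℕ) ≤ Q)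
        have h3 : (0 : ℝ) ≤ ((b i : ℕ) : ℝ) := Nat.cast_nonneg _
        linarith
    · have : F a - F b = 0 := sub_eq_zero.2 hab
      rw [← this, ← Finset.sum_sub_distrib]
      apply Finset.sum_congr rfl
      intro i _
      push_cast
      rw [sub_smul]

end Pool.Agent.H.MP_929345_co.Up
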