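import Pool.Agent.H.MP_929345_co.Abs
import Pool.Agent.H.MP_929345_co.Up.Global

/-! Total separability from local total separability, constants depending on the dimension only. -/

set_option autoImplicit false

namespace Pool.Agent.H.MP_929345_co.Up

open Set Metric
open Pool.Agent.H.MP_929345_co

/-- Main theorem, abstract form. -/
theorem main_abs (d : ℕ) (R : ℝ) (hR : 4 ≤ R) :
    ∃ r₀ : ℝ, 0 ≤ r₀ ∧ ∀ (V : Type) [NormedAddCommGroup V] [NormedSpace ℝ V]
      [FiniteDimensional ℝ V], Module.finrank ℝ V = d → ∀ (L : AddSubgroup V), Lat L R →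
      ∀ S : Set V,
      (∀ z ∈ S, ∀ v ∈ L, z + v ∈ S) →
      (∀ x ∈ S, ∀ y ∈ S, x ≠ y → ‖y - x‖ ≤ r₀ → Sep {z ∈ S | ‖z - x‖ ≤ r₀} x y) →
      ∀ x ∈ S, ∀ y ∈ S, x ≠ y → Sep S x y := by
  classical
  obtain ⟨N, hN⟩ := exists_nat_gt ((2 * R + 1) ^ d)
  have hN1 : (1 : ℝ) ≤ N := by
    have : (1 : ℝ) ≤ (2 * R + 1) ^ d := one_le_pow₀ (by linarith)
    linarith
  obtain ⟨r₀, hr₀, h2⟩ := step2 d R (3 * N) hR (by positivity)
  refine ⟨max r₀ (3 * N), le_max_of_le_left hr₀, ?_⟩
  intro V _ _ _ hd L hL S hS hloc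
  have h2 := h2 V hd
  -- close pairs
  have hclose : ∀ x ∈ S, ∀ y ∈ S, x ≠ y → ‖y - x‖ ≤ 3 * N →
      ∃ (g : V →L[ℝ] ℝ) (t₁ : ℝ), ∃ v₀ ∈ L, 0 < ‖g‖ ∧ 2 * ‖g‖ ≤ g v₀ ∧
        (∀ v ∈ L, ∃ j : ℤ, g v = j * g v₀) ∧ g x ≤ t₁ - ‖g‖ ∧ t₁ + ‖g‖ ≤ g y ∧
        ∀ z ∈ S, ‖g‖ ≤ |g z - t₁| := by
    intro x hx y hy hne hxy
    obtain ⟨f, t, hf0, hfx, hfy, hfz⟩ := hloc x hx y hy hne (le_trans hxy (le_max_right _ _))
    -- normalise
    have hfn : ‖(‖f‖⁻¹ : ℝ) • f‖ = 1 := by
      rw [norm_smul, norm_inv, norm_norm]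
      field_simp
    have happ : ∀ v, ((‖f‖⁻¹ : ℝ) • f) v = ‖f‖⁻¹ * f v := fun v => rfl
    have hi : 0 < ‖f‖⁻¹ := inv_pos.2 hf0
    have hii : ‖f‖⁻¹ * ‖f‖ = 1 := inv_mul_cancel₀ hf0.ne'
    refine h2 L hL S hS x hx y hy hxy ((‖f‖⁻¹ : ℝ) • f) hfn (‖f‖⁻¹ * t) ?_ ?_
      (max r₀ (3 * N)) (le_max_left _ _) ?_
    · rw [happ]
      have := mul_le_mul_of_nonneg_left hfx hi.le
      rw [mul_sub, hii] at this
      exact this
    · rw [happ]
      have := mul_le_mul_of_nonneg_left hfy hi.le
      rw [mul_add, hii] at this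
      exact this
    · intro z hz hzx
      have h3 := hfz z ⟨hz, hzx⟩
      rw [happ]
      rcases le_abs.1 h3 with h | h
      · right
        have := mul_le_mul_of_nonneg_left h hi.le
        rw [hii, mul_sub] at this
        linarith
      · left
        have := mul_le_mul_of_nonneg_left h hi.le
        rw [hii, neg_sub, mul_sub] at this
        linarith
  intro x hx y hy hne
  by_cases hxy : ‖y - x‖ ≤ 3 * N
  · obtain ⟨g, t, v₀, -, h0, -, -, h3, h4, h5⟩ := hclose x hx y hy hne hxy
    exact ⟨g, t, h0, h3, h4, h5⟩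
  · push Not at hxy
    set p := y - x with hp
    have hppos : 0 < ‖p‖ := by linarith
    -- points on the segment
    let q : Fin (N + 1) → V := fun j => ((3 / 2 * (j : ℕ) / ‖p‖ : ℝ)) • p
    have hqd : ∀ i j : Fin (N + 1), ‖q j - q i‖ = |3 / 2 * ((j : ℕ) - (i : ℕ) : ℝ)| := by
      intro i j
      have : q j - q i = ((3 / 2 * ((j : ℕ) - (i : ℕ) : ℝ)) / ‖p‖) • p := by
        simp only [q]
        rw [← sub_smul]
        congr 1
        field_simp
      rw [this, norm_smul, norm_div, norm_norm, Real.norm_eq_abs]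
      field_simp
    choose lam hlamL hlam using fun j : Fin (N + 1) => hL.cov (q j)
    -- pigeonhole
    obtain ⟨i, j, hij, hclose2⟩ : ∃ i j : Fin (N + 1), i ≠ j ∧
        ‖(q j - lam j) - (q i - lam i)‖ < 1 := by
      by_contra hcon
      push Not at hcon
      let F : Fin (N + 1) → V := fun j => (2 : ℝ) • (q j - lam j)
      have hFd : ∀ i j : Fin (N + 1), i ≠ j → 2 ≤ ‖F j - F i‖ := by
        intro i j hij
        have h1 := hcon i j hij
        have : F j - F i = (2 : ℝ) • ((q j - lam j) - (q i - lam i)) := by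
          simp only [F]; rw [← smul_sub]
        rw [this, norm_smul]
        norm_num
        linarith
      have hinj : Function.Injective F := by
        intro i j h
        by_contra hne'
        have := hFd i j hne'
        rw [h, sub_self, norm_zero] at this
        norm_num at this
      have hcard := card_le_of_separated (Finset.univ.image F) (2 * R) (by linarith)
        (by
          intro c hc
          obtain ⟨j, -, rfl⟩ := Finset.mem_image.1 hc
          simp only [F]
          rw [norm_smul]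
          norm_num
          linarith [hlam j])
        (by
          intro c hc c' hc' hne'
          obtain ⟨i, -, rfl⟩ := Finset.mem_image.1 hc
          obtain ⟨j, -, rfl⟩ := Finset.mem_image.1 hc'
          exact hFd j i (fun h => hne' (by rw [h])))
      rw [Finset.card_image_of_injective _ hinj, Finset.card_univ, Fintype.card_fin, hd] at hcard
      push_cast at hcard
      linarith
    set v := lam j - lam i with hv
    have hvL : v ∈ L := L.sub_mem (hlamL j) (hlamL i)
    set b := (q j - lam j) - (q i - lam i) with hb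
    have hqv : q j - q i = v + b := by rw [hv, hb]; abel
    have hge : 3 / 2 ≤ ‖q j - q i‖ := by
      rw [hqd]
      have : (1 : ℝ) ≤ |((j : ℕ) : ℝ) - ((i : ℕ) : ℝ)| := by
        have h1 : ((j : ℕ) : ℤ) - ((i : ℕ) : ℤ) ≠ 0 := by
          intro h
          apply hij
          ext
          omega
        have h2 := Int.one_le_abs h1
        exact_mod_cast h2
      rw [abs_mul]
      norm_num
      linarith
    have hle : ‖q j - q i‖ ≤ 3 / 2 * N := by
      rw [hqd, abs_mul]
      have : |((j : ℕ) : ℝ) - ((i : ℕ) : ℝ)| ≤ N := by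
        have h1 : ((j : ℕ) : ℝ) ≤ N := by exact_mod_cast Nat.le_of_lt_succ j.2
        have h2 : ((i : ℕ) : ℝ) ≤ N := by exact_mod_cast Nat.le_of_lt_succ i.2
        have h3 : (0 : ℝ) ≤ ((j : ℕ) : ℝ) := Nat.cast_nonneg _
        have h4 : (0 : ℝ) ≤ ((i : ℕ) : ℝ) := Nat.cast_nonneg _
        rw [abs_le]; constructor <;> linarith
      norm_num
      linarith
    have hvne : v ≠ 0 := by
      intro h0
      rw [hqv, h0, zero_add] at hge
      linarith
    have hvle : ‖v‖ ≤ 3 * N := by
      have : v = (q j - q i) - b := by rw [hqv]; abel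
      rw [this]
      have := norm_sub_le (q j - q i) b
      linarith
    have hxv : x + v ∈ S := hS x hx v hvL
    obtain ⟨g, t, v₀, hv₀, h0, hwid, hint, hgx, hgy, hgz⟩ := hclose x hx (x + v) hxv
      (by
        intro h
        apply hvne
        have := congrArg (fun z => z - x) h
        simpa using this.symm)
      (by simpa using hvle)
    set γ := g v₀ with hγ
    have hγpos : 0 < γ := by linarith
    have hgv : γ ≤ g v := by
      obtain ⟨m, hm⟩ := hint v hvL
      have h1 : 0 < g v := by
        rw [map_add] at hgy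
        linarith
      rw [hm] at h1
      have h2 : 0 < (m : ℝ) := by
        by_contra hcon
        push Not at hcon
        nlinarith
      have h3 : (1 : ℝ) ≤ m := by
        have : (0 : ℤ) < m := by exact_mod_cast h2
        exact_mod_cast this
      rw [hm]
      nlinarith
    -- value on p
    have hqp : ∃ c : ℝ, |c| ≤ 1 / 2 ∧ q j - q i = c • p := by
      refine ⟨(3 / 2 * ((j : ℕ) - (i : ℕ) : ℝ)) / ‖p‖, ?_, ?_⟩
      · rw [abs_div, abs_of_pos hppos, ← hqd i j, div_le_iff₀ hppos]
        linarith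
      · simp only [q]
        rw [← sub_smul]
        congr 1
        field_simp
    obtain ⟨c, hc, hqc⟩ := hqp
    have hgp : γ ≤ |g p| := by
      have h1 : g v = c * g p - g b := by
        have : v = c • p - b := by rw [← hqc, hqv]; abel
        rw [this, map_sub, map_smul, smul_eq_mul]
      have h2 : |g b| ≤ ‖g‖ := by
        calc |g b| = ‖g b‖ := rfl
          _ ≤ ‖g‖ * ‖b‖ := g.le_opNorm _
          _ ≤ ‖g‖ * 1 := mul_le_mul_of_nonneg_left hclose2.le (norm_nonneg _)
          _ = ‖g‖ := mul_one _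
      have h3 : |c * g p| ≤ 1 / 2 * |g p| := by
        rw [abs_mul]
        exact mul_le_mul_of_nonneg_right hc (abs_nonneg _)
      have h4 := le_abs_self (c * g p)
      have h5 := neg_abs_le (g b)
      linarith
    have hval : ∀ m : ℤ, ∀ z ∈ S, ‖g‖ ≤ |g z - (t + m * γ)| := by
      intro m z hz
      have h1 : z + ((-m : ℤ) : ℝ) • v₀ ∈ S := hS z hz _ (zsmul_mem' hv₀ _)
      have h2 := hgz _ h1
      rw [map_add, map_smul, smul_eq_mul] at h2
      push_cast at h2
      have : g z + -(m : ℝ) * g v₀ - t = g z - (t + m * γ) := by rw [hγ]; ring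
      rwa [this] at h2
    have hpxy : g p = g y - g x := by rw [hp, map_sub]
    rcases le_abs.1 hgp with hcase | hcase
    · set m := ⌊(g x - t) / γ⌋ + 1 with hm
      have h1 : g x < t + m * γ := by
        have := Int.lt_floor_add_one ((g x - t) / γ)
        rw [div_lt_iff₀ hγpos] at this
        rw [hm]; push_cast; linarith
      have h2 : t + m * γ ≤ g x + γ := by
        have := Int.floor_le ((g x - t) / γ)
        rw [le_div_iff₀ hγpos] at this
        rw [hm]; push_cast; linarith
      refine ⟨g, t + m * γ, h0, ?_, ?_, hval m⟩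
      · rcases le_abs.1 (hval m x hx) with h | h <;> linarith
      · rcases le_abs.1 (hval m y hy) with h | h <;> linarith
    · refine Sep.symm ?_
      set m := ⌊(g y - t) / γ⌋ + 1 with hm
      have h1 : g y < t + m * γ := by
        have := Int.lt_floor_add_one ((g y - t) / γ)
        rw [div_lt_iff₀ hγpos] at this
        rw [hm]; push_cast; linarith
      have h2 : t + m * γ ≤ g y + γ := by
        have := Int.floor_le ((g y - t) / γ)
        rw [le_div_iff₀ hγpos] at this
        rw [hm]; push_cast; linarith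
      refine ⟨g, t + m * γ, h0, ?_, ?_, hval m⟩
      · rcases le_abs.1 (hval m y hy) with h | h <;> linarith
      · rcases le_abs.1 (hval m x hx) with h | h <;> linarith

end Pool.Agent.H.MP_929345_co.Up
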