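import Pool.Agent.H.MP_929345_co.Transfer
import Pool.Agent.H.MP_929345_co.Up.Abs

/-! Transfer of the abstract theorem to convex bodies, uniformly in the body. -/

set_option autoImplicit false

namespace Pool.Agent.H.MP_929345_co.Up

open Set Metric
open Pool.Agent.H.MP_929345_co

/-- Local total separability implies total separability for sets with dense periods. -/
theorem transfer (d : ℕ) (R : ℝ) (hR : 4 ≤ R) :
    ∃ ρ₀ : ℝ, 1 ≤ ρ₀ ∧ ∀ ρ : ℝ, ρ₀ ≤ ρ → ∀ C : Set (Fin d → ℝ), IsBody C →
      ∀ L : AddSubgroup (Fin d → ℝ),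
      (∀ v ∈ L, v ≠ 0 → 2 ≤ gauge C v) → (∀ p, ∃ v ∈ L, gauge C (p - v) ≤ R) →
      ∀ S : Set (Fin d → ℝ), (∀ z ∈ S, ∀ v ∈ L, z + v ∈ S) → RhoSep ρ C S → TotSep C S := by
  obtain ⟨r₀, hr₀, hmain0⟩ := main_abs d R hR
  refine ⟨r₀ + 1, by linarith, ?_⟩
  intro ρ hρ C h L hL2 hLR S hSL hrho
  letI : NormedAddCommGroup (GSpace d C) := NormedAddCommGroup.ofCore h.core
  letI : NormedSpace ℝ (GSpace d C) := NormedSpace.ofCore h.core
  have hfr : Module.finrank ℝ (GSpace d C) = d := by
    rw [← (GSpace.e d C).finrank_eq, Module.finrank_fin_fun]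
  have hmain := hmain0 (GSpace d C) hfr
  have hρpos : 0 < ρ := by linarith
  set e := GSpace.e d C with he
  have hnorm : ∀ x : GSpace d C, ‖x‖ = gauge C (e.symm x) := fun x => rfl
  have hnorm' : ∀ x : Fin d → ℝ, ‖e x‖ = gauge C x := fun x => by
    rw [hnorm, LinearEquiv.symm_apply_apply]
  let L' : AddSubgroup (GSpace d C) := L.comap (e.symm : GSpace d C →+ (Fin d → ℝ))
  have hL' : ∀ v : GSpace d C, v ∈ L' ↔ e.symm v ∈ L := fun v => Iff.rfl
  have hLat : Lat L' R := by
    constructor
    · intro v hv hv0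
      rw [hnorm]
      exact hL2 _ hv (by simpa using hv0)
    · intro p
      obtain ⟨v, hv, hv2⟩ := hLR (e.symm p)
      refine ⟨e v, ?_, ?_⟩
      · rw [hL', LinearEquiv.symm_apply_apply]; exact hv
      · rw [hnorm, map_sub, LinearEquiv.symm_apply_apply]; exact hv2
  have key := hmain L' hLat {x | e.symm x ∈ S}
    (by
      intro z hz v hv
      change e.symm (z + v) ∈ S
      rw [map_add]
      exact hSL _ hz _ hv) ?_
  · -- conclusion
    intro x hx y hy hne
    obtain ⟨g, t, hg0, hgx, hgy, hgz⟩ := key (e x) (by simpa using hx) (e y) (by simpa using hy)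
      (fun hh => hne (e.injective hh))
    let f : (Fin d → ℝ) →L[ℝ] ℝ :=
      LinearMap.toContinuousLinearMap ((g : GSpace d C →ₗ[ℝ] ℝ) ∘ₗ (e : (Fin d → ℝ) →ₗ[ℝ] GSpace d C))
    have hf : ∀ v : Fin d → ℝ, f v = g (e v) := fun v => rfl
    have hgle : ∀ w ∈ C, |f w| ≤ ‖g‖ := by
      intro w hw
      rw [hf]
      calc |g (e w)| = ‖g (e w)‖ := rfl
        _ ≤ ‖g‖ * ‖e w‖ := g.le_opNorm _
        _ ≤ ‖g‖ * 1 := mul_le_mul_of_nonneg_left
            (by rw [hnorm']; exact h.gauge_le_one_iff.2 hw) (norm_nonneg _)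
        _ = ‖g‖ := mul_one _
    refine ⟨f, ?_, t, ?_, ?_, ?_⟩
    · intro h0
      have : g = 0 := by
        ext v
        have := congrArg (fun F : (Fin d → ℝ) →L[ℝ] ℝ => F (e.symm v)) h0
        simp only [hf, LinearEquiv.apply_symm_apply] at this
        simpa using this
      rw [this, norm_zero] at hg0
      exact lt_irrefl _ hg0
    · intro w hw
      rw [map_add, hf x]
      have := (abs_le.1 (hgle w hw)).2
      linarith
    · intro w hw
      rw [map_add, hf y]
      have := (abs_le.1 (hgle w hw)).1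
      linarith
    · intro z hz w hw heq
      rw [map_add, hf z] at heq
      have h1 : |f w| < ‖g‖ := by
        rw [hf]
        calc |g (e w)| = ‖g (e w)‖ := rfl
          _ ≤ ‖g‖ * ‖e w‖ := g.le_opNorm _
          _ < ‖g‖ * 1 := mul_lt_mul_of_pos_left
            (by rw [hnorm']; exact h.gauge_lt_one_iff.2 hw) hg0
          _ = ‖g‖ := mul_one _
      have h2 := hgz (e z) (by simpa using hz)
      have h3 : g (e z) - t = -(f w) := by linarith
      rw [h3, abs_neg] at h2
      linarith
  · -- local hypothesis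
    intro x hx y hy hne hyx
    have hx' : e.symm x ∈ S := hx
    have hy' : e.symm y ∈ S := hy
    have hmem : ∀ z : GSpace d C, ‖z - x‖ ≤ r₀ →
        ∀ w ∈ C, ∃ v ∈ C, e.symm z + w = e.symm x + ρ • v := by
      intro z hzx w hw
      rw [hnorm, map_sub] at hzx
      refine ⟨ρ⁻¹ • (e.symm z - e.symm x + w), ?_, ?_⟩
      · rw [← h.gauge_le_one_iff, h.gauge_smul, abs_of_pos (inv_pos.2 hρpos),
          inv_mul_le_iff₀ hρpos]
        have h1 := gauge_add_le h.convex h.absorbent (e.symm z - e.symm x) w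
        have h2 := h.gauge_le_one_iff.2 hw
        linarith
      · rw [smul_smul, mul_inv_cancel₀ hρpos.ne', one_smul]
        abel
    have hxx : ‖x - x‖ ≤ r₀ := by rw [sub_self, norm_zero]; exact hr₀
    obtain ⟨f', hf'0, t, h1, h2, h3⟩ := hrho _ hx' _ ⟨hx', hmem x hxx⟩ _ ⟨hy', hmem y hyx⟩
      (fun hh => hne (e.symm.injective hh))
    let f : GSpace d C →L[ℝ] ℝ :=
      LinearMap.toContinuousLinearMap
        ((f' : (Fin d → ℝ) →ₗ[ℝ] ℝ) ∘ₗ (e.symm : GSpace d C →ₗ[ℝ] (Fin d → ℝ)))
    have hf : ∀ v : GSpace d C, f v = f' (e.symm v) := fun v => rfl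
    have hf0 : 0 < ‖f‖ := by
      rw [norm_pos_iff]
      intro h0
      apply hf'0
      ext1 v
      have := congrArg (fun F : GSpace d C →L[ℝ] ℝ => F (e v)) h0
      simp only [hf, LinearEquiv.symm_apply_apply] at this
      simpa using this
    have h00 : (0 : Fin d → ℝ) ∈ C := interior_subset h.zero_mem_interior
    have hbound : ∀ c : ℝ, (∀ w ∈ C, f' w ≤ c) → ‖f‖ ≤ c := by
      intro c h5
      refine ContinuousLinearMap.opNorm_le_of_unit_norm ?_ ?_
      · have := h5 0 h00
        rwa [map_zero] at this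
      · intro w hw
        rw [hnorm] at hw
        have hwC : e.symm w ∈ C := h.gauge_le_one_iff.1 (le_of_eq hw)
        rw [Real.norm_eq_abs, abs_le, hf]
        constructor
        · have := h5 _ (h.symm _ hwC)
          rw [map_neg] at this
          linarith
        · exact h5 _ hwC
    refine ⟨f, t, hf0, ?_, ?_, ?_⟩
    · have h4 : ‖f‖ ≤ t - f x := by
        apply hbound
        intro w hw
        have := h1 w hw
        rw [map_add] at this
        rw [hf]; linarith
      linarith
    · have h4 : ‖f‖ ≤ f y - t := by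
        apply hbound
        intro w hw
        have := h2 _ (h.symm w hw)
        rw [map_add, map_neg] at this
        rw [hf]; linarith
      linarith
    · rintro z ⟨hz, hzx⟩
      by_contra hcon
      push Not at hcon
      obtain ⟨u, hu1, hu2⟩ := f.exists_lt_apply_of_lt_opNorm hcon
      rw [Real.norm_eq_abs] at hu2
      rw [hnorm] at hu1
      have hfu : f u ≠ 0 := by
        intro h0
        rw [h0, abs_zero] at hu2
        exact absurd hu2 (not_lt.2 (abs_nonneg _))
      have hfz := h3 (e.symm z) ⟨hz, hmem z hzx⟩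
      refine hfz (((t - f z) / f u) • (e.symm u)) ?_ ?_
      · rw [← h.gauge_lt_one_iff, h.gauge_smul, abs_div, abs_sub_comm]
        have h6 : |f z - t| / |f u| ≤ 1 := by
          rw [div_le_one (abs_pos.2 hfu)]; exact hu2.le
        have h8 : 0 ≤ gauge C (e.symm u) := gauge_nonneg _
        have h9 : 0 ≤ |f z - t| / |f u| := by positivity
        nlinarith
      · rw [map_add, map_smul, smul_eq_mul, ← hf, ← hf]
        field_simp
        ring

end Pool.Agent.H.MP_929345_co.Up
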