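import Pool.Agent.H.MP_929345_co.Periods
import Pool.Agent.H.MP_929345_co.Up.Transfer

/-! Periodic packings, uniformly in the body. -/

set_option autoImplicit false

namespace Pool.Agent.H.MP_929345_co.Up

open Set Metric MeasureTheory Filter
open scoped ENNReal Pointwise Topology
open Pool.Agent.H.MP_929345_co

/-- Main structural theorem: periodic `ρ`-separable packings of positive density with boundedly
many translates are totally separable. -/
theorem structural (d k : ℕ) (δ : ℝ) (hδ : 0 < δ) :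
    ∃ ρ₀ : ℝ, 1 ≤ ρ₀ ∧ ∀ ρ : ℝ, ρ₀ ≤ ρ → ∀ C : Set (Fin d → ℝ), IsBody C →
      ∀ S : Set (Fin d → ℝ), IsPeriodic k S →
      IsPacking C S → RhoSep ρ C S → ENNReal.ofReal δ ≤ dens C S → TotSep C S := by
  obtain ⟨N, hN⟩ := exists_nat_gt (k * 2 ^ d / δ)
  have hN0 : 0 < N := by
    have : (0 : ℝ) < N := lt_of_le_of_lt (by positivity) hN
    exact_mod_cast this
  have hN0' : (0 : ℝ) < N := by exact_mod_cast hN0
  rw [div_lt_iff₀ hδ] at hN
  obtain ⟨ρ₀, hρ₀, hmain⟩ := transfer d (max 4 (3 / 2 * N)) (le_max_left _ _)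
  refine ⟨ρ₀, hρ₀, ?_⟩
  intro ρ hρ C h S hSper hSpack hSrho hSdens
  obtain ⟨L, F, hF, rfl⟩ := periodic_form hSper
  set S : Set (Fin d → ℝ) := {x | ∃ s ∈ F, ∃ v ∈ L, x = s + v} with hS
  rcases F.eq_empty_or_nonempty with hFe | ⟨s, hs⟩
  · intro x hx
    obtain ⟨s, hs, -⟩ := hx
    rw [hFe] at hs
    exact absurd hs (Finset.notMem_empty _)
  have hL : ∀ v ∈ L, v ≠ 0 → 2 ≤ gauge C v := by
    intro v hv hv0
    have h1 : s + v ∈ S := ⟨s, hs, v, hv, rfl⟩
    have h2 : s ∈ S := ⟨s, hs, 0, L.zero_mem, by simp⟩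
    have := hSpack _ h1 _ h2 (by simpa using hv0)
    simpa using this
  have hcov := cov_of_dens h L F hL N hN0 (by
    refine lt_of_lt_of_le ?_ hSdens
    rw [ENNReal.ofReal_lt_ofReal_iff hδ, div_lt_iff₀ hN0']
    have : (F.card : ℝ) ≤ k := by exact_mod_cast hF
    have h2 : (0 : ℝ) < 2 ^ d := by positivity
    nlinarith)
  exact hmain ρ hρ C h L hL (fun p => by
      obtain ⟨v, hv, hv2⟩ := hcov p
      exact ⟨v, hv, le_trans hv2 (le_max_right _ _)⟩) S
    (by
      rintro z ⟨s', hs', v, hv, rfl⟩ w hw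
      exact ⟨s', hs', v + w, L.add_mem hv hw, by abel⟩) hSrho

end Pool.Agent.H.MP_929345_co.Up
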