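import Pool.Agent.H.MP_929345_co.Example
import Pool.Agent.H.MP_929345_co.Un.Aub
import Pool.Agent.H.MP_929345_co.Un.Lin
import Pool.Agent.H.MP_929345_co.Up.Periods

/-! Equality of the densities of periodic packings, uniformly in the body. -/

set_option autoImplicit false

namespace Pool.Agent.H.MP_929345_co.Up

open Set Metric MeasureTheory Filter
open scoped ENNReal Pointwise Topology
open Pool.Agent.H.MP_929345_co

variable {d : ℕ} {C : Set (Fin d → ℝ)}

/-- A relatively dense packing has positive density. -/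
theorem dens_of_cover (h : IsBody C) {S : Set (Fin d → ℝ)} (hS : IsPacking C S) (R : ℝ)
    (hR : 0 < R) (hcov : ∀ p, ∃ v ∈ S, gauge C (p - v) ≤ R) :
    ENNReal.ofReal ((2 * R)⁻¹ ^ d) ≤ dens C S := by
  classical
  obtain ⟨a, ha, hC⟩ := h.exists_bound
  rw [dens_def]
  apply le_limsup_of_frequently_le'
  apply Eventually.frequently
  filter_upwards [eventually_ge_atTop (2 * (R + 1) * a)] with r hr
  have hr0 : 0 < r := lt_of_lt_of_le (by positivity) hr
  have hfin : (S ∩ Win C r).Finite :=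
    finite_inter h (fun x hx y hy hxy => by linarith [hS x hx y hy hxy]) hr0.le
  have hsub : {x : Fin d → ℝ | ∀ i, |x i| ≤ r / 2} ⊆
      ⋃ v ∈ hfin.toFinset, (fun x => v + x) '' (R • C) := by
    intro p hp
    obtain ⟨v, hv, hpv⟩ := hcov p
    have hw : p - v ∈ R • C := by
      rw [mem_smul_set_iff_inv_smul_mem₀ hR.ne', ← h.gauge_le_one_iff, h.gauge_smul,
        abs_of_pos (inv_pos.2 hR), inv_mul_le_iff₀ hR, mul_one]
      exact hpv
    refine mem_iUnion₂.2 ⟨v, ?_, p - v, hw, by simp⟩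
    rw [Set.Finite.mem_toFinset]
    refine ⟨hv, fun w hwC i => ?_⟩
    have h1 := h.coord_le ha hC (p - v) i
    have h2 := hp i
    have h3 := hC w hwC i
    have h4 : |(p - v) i| ≤ a * R := h1.trans (mul_le_mul_of_nonneg_left hpv ha.le)
    rw [Pi.sub_apply] at h4
    have h5 := abs_le.1 h2
    have h6 := abs_le.1 h3
    have h7 := abs_le.1 h4
    rw [abs_le]
    constructor
    · nlinarith [h5.1, h6.1, h7.2]
    · nlinarith [h5.2, h6.2, h7.1]
  have hvol : ENNReal.ofReal (r ^ d) ≤
      ((S ∩ Win C r).ncard : ℝ≥0∞) * (ENNReal.ofReal (R ^ d) * volume C) := by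
    have h1 : volume {x : Fin d → ℝ | ∀ i, |x i| ≤ r / 2} = ENNReal.ofReal (r ^ d) := by
      rw [volume_cube _ (by positivity)]
      congr 2
      ring
    rw [← h1]
    refine (measure_mono hsub).trans ((measure_biUnion_finset_le _ _).trans ?_)
    have h2 : ∀ v : Fin d → ℝ, volume ((fun x => v + x) '' (R • C)) =
        ENNReal.ofReal (R ^ d) * volume C := by
      intro v
      have h3 : (fun x => v + x) '' (R • C) = v +ᵥ (R • C) := rfl
      rw [h3, measure_vadd, Measure.addHaar_smul, Module.finrank_fin_fun,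
        abs_of_nonneg (by positivity)]
    simp only [h2]
    rw [Finset.sum_const, nsmul_eq_mul, ← Set.ncard_eq_toFinset_card _ hfin]
  have hR0 : ENNReal.ofReal (R ^ d) ≠ 0 := by
    rw [Ne, ENNReal.ofReal_eq_zero, not_le]; positivity
  rw [ENNReal.le_div_iff_mul_le (Or.inl (by
    rw [Ne, ENNReal.ofReal_eq_zero, not_le]; positivity)) (Or.inl ENNReal.ofReal_ne_top)]
  have h4 : ENNReal.ofReal ((2 * R)⁻¹ ^ d) * ENNReal.ofReal ((2 * r) ^ d) * ENNReal.ofReal (R ^ d) =
      ENNReal.ofReal (r ^ d) := by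
    rw [← ENNReal.ofReal_mul (by positivity), ← ENNReal.ofReal_mul (by positivity), ← mul_pow,
      ← mul_pow]
    congr 2
    field_simp
  refine (ENNReal.mul_le_mul_iff_left hR0 ENNReal.ofReal_ne_top).1 ?_
  rw [h4]
  refine hvol.trans (le_of_eq ?_)
  ring

/-- Every body has a lattice packing which is totally separable and has density at least a
constant that depends on the dimension only. -/
theorem exists_lattice (h : IsBody C) (k : ℕ) (hk : 1 ≤ k) :
    ∃ S : Set (Fin d → ℝ), IsPeriodic k S ∧ IsPacking C S ∧ TotSep C S ∧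
      ENNReal.ofReal ((2 * ((d : ℝ) + 1))⁻¹ ^ d) ≤ dens C S := by
  classical
  obtain ⟨A, hA1, hA2⟩ := Un.exists_frame h
  set K : Set (Fin d → ℝ) := A.symm ⁻¹' C with hK
  have hKb : IsBody K := Un.body_pre A.symm h
  have hAK : A ⁻¹' K = C := by
    ext x
    simp [hK]
  have hK1 : ∀ w ∈ K, ∀ i, |w i| ≤ 1 := by
    intro w hw i
    have := hA1 (A.symm w) hw i
    rwa [A.apply_symm_apply] at this
  have hK2 : ∀ w : Fin d → ℝ, (∀ i, |w i| ≤ 1) → gauge K w ≤ d + 1 := by
    intro w hw
    have h1 : ((d : ℝ) + 1)⁻¹ • w ∈ K := by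
      refine hA2 _ ?_
      have h2 : ∀ i : Fin d, |(((d : ℝ) + 1)⁻¹ • w) i| ≤ ((d : ℝ) + 1)⁻¹ := by
        intro i
        rw [Pi.smul_apply, smul_eq_mul, abs_mul, abs_of_pos (by positivity)]
        exact mul_le_of_le_one_right (by positivity) (hw i)
      refine (Finset.sum_le_sum fun i _ => h2 i).trans ?_
      rw [Finset.sum_const, Finset.card_univ, Fintype.card_fin, nsmul_eq_mul, ← div_eq_mul_inv,
        div_le_one (by positivity)]
      linarith
    have h3 := hKb.gauge_le_one_iff.2 h1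
    rw [hKb.gauge_smul, abs_of_pos (by positivity), inv_mul_le_iff₀ (by positivity), mul_one] at h3
    exact h3
  have hpack := cubic_packing hKb zero_lt_one hK1
  have htot := cubic_totSep hKb zero_lt_one hK1
  have hper := cubic_periodic (d := d) 1 one_pos k hk
  refine ⟨A ⁻¹' cubic d 1, ?_, ?_, ?_, ?_⟩
  · obtain ⟨b, hb, F, hF, hS⟩ := hper
    refine ⟨fun i => A.symm (b i), ?_, F.image A.symm, Finset.card_image_le.trans hF, ?_⟩
    · exact hb.map' (A.symm.toLinearEquiv.toLinearMap) A.symm.toLinearEquiv.ker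
    · rw [hS]
      ext x
      constructor
      · rintro ⟨s, hs, n, hn⟩
        refine ⟨A.symm s, Finset.mem_image_of_mem _ hs, n, ?_⟩
        apply A.injective
        rw [map_add, map_sum, A.apply_symm_apply, hn]
        congr 1
        refine Finset.sum_congr rfl fun i _ => ?_
        rw [map_smul, A.apply_symm_apply]
      · rintro ⟨s', hs', n, rfl⟩
        obtain ⟨s, hs, rfl⟩ := Finset.mem_image.1 hs'
        refine ⟨s, hs, n, ?_⟩
        rw [map_add, map_sum, A.apply_symm_apply]
        congr 1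
        refine Finset.sum_congr rfl fun i _ => ?_
        rw [map_smul, A.apply_symm_apply]
  · have := Un.packing_pre A hpack
    rwa [hAK] at this
  · have := Un.totSep_pre A htot
    rwa [hAK] at this
  · have hpk := Un.packing_pre A hpack
    rw [hAK] at hpk
    refine dens_of_cover h hpk ((d : ℝ) + 1) (by positivity) fun p => ?_
    refine ⟨A.symm (fun i => 2 * (round (A p i / 2) : ℝ)), ?_, ?_⟩
    · rw [mem_preimage, A.apply_symm_apply]
      exact ⟨fun i => round (A p i / 2), fun i => by ring⟩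
    · rw [← hAK, Un.gauge_pre, map_sub, A.apply_symm_apply]
      refine hK2 _ fun i => ?_
      have h1 := abs_sub_round (A p i / 2)
      rw [Pi.sub_apply]
      have h2 : A p i - 2 * (round (A p i / 2) : ℝ) = 2 * (A p i / 2 - round (A p i / 2)) := by ring
      rw [h2, abs_mul, abs_two]
      linarith

/-- Equality of the densities of `k`-periodic packings, with one constant for all bodies. -/
theorem periodic_equality (d k : ℕ) :
    ∃ ρ₀ : ℝ, 1 ≤ ρ₀ ∧ ∀ ρ : ℝ, ρ₀ ≤ ρ → ∀ C : Set (Fin d → ℝ), IsBody C →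
      (⨆ S ∈ {S : Set (Fin d → ℝ) | IsPeriodic k S ∧ IsPacking C S ∧ TotSep C S}, dens C S) =
      ⨆ S ∈ {S : Set (Fin d → ℝ) | IsPeriodic k S ∧ IsPacking C S ∧ RhoSep ρ C S}, dens C S := by
  rcases Nat.eq_zero_or_pos k with hk | hk
  · refine ⟨1, le_rfl, fun ρ _ C h => ?_⟩
    apply le_antisymm
    · exact biSup_mono fun S hS => ⟨hS.1, hS.2.1, hS.2.2.rhoSep ρ⟩
    · refine biSup_mono fun S hS => ⟨hS.1, hS.2.1, ?_⟩
      obtain ⟨b, -, F, hF, rfl⟩ := hS.1
      subst hk
      rintro x ⟨s, hs, -⟩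
      have : F = ∅ := by simpa using hF
      rw [this] at hs
      exact absurd hs (Finset.notMem_empty _)
  · set δ : ℝ := (2 * ((d : ℝ) + 1))⁻¹ ^ d with hδ
    have hδ0 : 0 < δ := by positivity
    obtain ⟨ρ₀, hρ₀, hmain⟩ := structural d k δ hδ0
    refine ⟨ρ₀, hρ₀, fun ρ hρ C h => ?_⟩
    obtain ⟨S₀, h1, h2, h3, h4⟩ := exists_lattice h k hk
    apply le_antisymm
    · exact biSup_mono fun S hS => ⟨hS.1, hS.2.1, hS.2.2.rhoSep ρ⟩
    · refine iSup₂_le fun S hS => ?_
      rcases le_total (ENNReal.ofReal δ) (dens C S) with hle | hle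
      · exact le_biSup (f := fun S => dens C S)
          (show S ∈ {S : Set (Fin d → ℝ) | IsPeriodic k S ∧ IsPacking C S ∧ TotSep C S} from
            ⟨hS.1, hS.2.1, hmain ρ hρ C h S hS.1 hS.2.1 hS.2.2 hle⟩)
      · refine le_trans hle (le_trans h4 ?_)
        exact le_biSup (f := fun S => dens C S)
          (show S₀ ∈ {S : Set (Fin d → ℝ) | IsPeriodic k S ∧ IsPacking C S ∧ TotSep C S} from
            ⟨h1, h2, h3⟩)

end Pool.Agent.H.MP_929345_co.Up
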